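import Pool.Agent.N290.RI.Stm

/-!
# Estimate at the centre of the ball, from the one-variable lemma and the slices

Project RI (helper290), part C2 (helper507).
-/

set_option autoImplicit false
set_option linter.all false

open Complex MeasureTheory Set Filter Topology
open scoped ENNReal

namespace Pool.Agent.N507.RI

open Pool.Agent.N290.RI

noncomputable section

/-- the radius of the slice -/
def rs (s : ℂ) : ℝ := (Real.sqrt (1 + ‖s‖ ^ 2))⁻¹

theorem rs_pos (s : ℂ) : 0 < rs s := inv_pos.2 (Real.sqrt_pos.2 (by positivity))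

theorem rs_sq (s : ℂ) : (1 + ‖s‖ ^ 2) * rs s ^ 2 = 1 := by
  have h : 0 < 1 + ‖s‖ ^ 2 := by positivity
  rw [rs, inv_pow, Real.sq_sqrt h.le, mul_inv_cancel₀ h.ne']

/-- the slice -/
def Lm (s : ℂ) : ℂ →L[ℝ] ℂ × ℂ :=
  (ContinuousLinearMap.id ℝ ℂ).prod ((ContinuousLinearMap.mul ℝ ℂ).flip s)

theorem Lm_apply (s τ : ℂ) : Lm s τ = (τ, τ * s) := rfl

theorem N_Lm (s τ : ℂ) : N (τ, τ * s) * rs s ^ 2 = ‖τ‖ ^ 2 := by
  have h := rs_sq s
  simp only [N, norm_mul, mul_pow]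
  linear_combination ‖τ‖ ^ 2 * h

theorem Lm_mem {s τ : ℂ} (hτ : τ ∈ Metric.ball (0 : ℂ) (rs s)) : (τ, τ * s) ∈ B := by
  rw [mem_ball_zero_iff] at hτ
  rw [mem_B]
  have h1 := N_Lm s τ
  have h2 := rs_pos s
  have h3 : ‖τ‖ ^ 2 < rs s ^ 2 := by
    have := norm_nonneg τ
    nlinarith
  by_contra h4
  push Not at h4
  nlinarith [mul_le_mul_of_nonneg_right h4 (sq_nonneg (rs s))]

theorem len_Lm {s τ : ℂ} (hτ : τ ∈ Metric.ball (0 : ℂ) (rs s)) :
    len (τ, τ * s) (1, s) = rs s / (rs s ^ 2 - ‖τ‖ ^ 2) := by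
  have hB := Lm_mem hτ
  rw [mem_ball_zero_iff] at hτ
  have h2 := rs_pos s
  have h3 : 0 < rs s ^ 2 - ‖τ‖ ^ 2 := by
    have := norm_nonneg τ
    nlinarith
  have h1 := N_Lm s τ
  have h4 := rs_sq s
  have h5 : 0 < 1 - N (τ, τ * s) := sub_pos.2 hB
  have h6 : N ((1 : ℂ), s) = 1 + ‖s‖ ^ 2 := by simp [N]
  have h7 : ip (1, s) (τ, τ * s) = starRingEnd ℂ τ * ((1 + ‖s‖ ^ 2 : ℝ) : ℂ) := by
    have h8 : s * starRingEnd ℂ s = ((‖s‖ ^ 2 : ℝ) : ℂ) := by
      rw [Complex.mul_conj, Complex.normSq_eq_norm_sq]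
    simp only [ip, map_mul]
    push_cast at h8 ⊢
    linear_combination starRingEnd ℂ τ * h8
  have h9 : ‖ip (1, s) (τ, τ * s)‖ = ‖τ‖ * (1 + ‖s‖ ^ 2) := by
    rw [h7, norm_mul, Complex.norm_conj, Complex.norm_real, Real.norm_of_nonneg (by positivity)]
  have h10 : len2 (τ, τ * s) (1, s) = (rs s / (rs s ^ 2 - ‖τ‖ ^ 2)) ^ 2 := by
    rw [len2, h6, h9]
    have e1 : 1 + ‖s‖ ^ 2 = 1 / rs s ^ 2 := by field_simp; linarith
    have e2 : 1 - N (τ, τ * s) = (rs s ^ 2 - ‖τ‖ ^ 2) / rs s ^ 2 := by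
      field_simp
      linarith
    rw [e1, e2]
    field_simp
    ring
  rw [len, h10, Real.sqrt_sq (by positivity)]

theorem db1_Lm {Γ : ℂ × ℂ → ℂ} {s τ : ℂ} (hd : DifferentiableAt ℝ Γ (τ, τ * s)) :
    db1 (fun t => Γ (t, t * s)) τ = db Γ (τ, τ * s) (1, s) := by
  have h1 : HasFDerivAt (fun t => Γ (t, t * s)) ((fderiv ℝ Γ (τ, τ * s)).comp (Lm s)) τ :=
    HasFDerivAt.comp τ (g := Γ) (f := fun t => (t, t * s)) hd.hasFDerivAt (Lm s).hasFDerivAt
  have e1 : ((1 : ℂ), (1 : ℂ) * s) = (1, s) := by rw [one_mul]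
  have e2 : (I, I * s) = I • ((1 : ℂ), s) := by
    rw [Prod.smul_mk, smul_eq_mul, smul_eq_mul, mul_one]
  rw [db1, db, h1.fderiv, ContinuousLinearMap.comp_apply, ContinuousLinearMap.comp_apply,
    Lm_apply, Lm_apply, e1, e2]

theorem C2_of (h1 : C1) (h2 : C2a) (h3 : C2b) : C2 := by
  intro Γ M e hΓ hM hem he hdb
  have hint : IntegrableOn (fun ξ => Γ ξ - Γ 0) B := by
    have hfin : volume B < ⊤ := by
      have hb : Bornology.IsBounded B := by
        refine (Metric.isBounded_closedBall (x := (0 : ℂ × ℂ)) (r := 1)).subset ?_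
        intro z hz
        rw [mem_closedBall_zero_iff, Prod.norm_def, max_le_iff]
        have h4 : ‖z.1‖ ^ 2 + ‖z.2‖ ^ 2 < 1 := hz
        constructor <;> nlinarith [norm_nonneg z.1, norm_nonneg z.2, sq_nonneg ‖z.1‖,
          sq_nonneg ‖z.2‖]
      exact hb.measure_lt_top
    refine IntegrableOn.of_bound hfin
      ((hΓ.continuousOn.sub continuousOn_const).aestronglyMeasurable B_meas) (M + ‖Γ 0‖) ?_
    rw [ae_restrict_iff' B_meas]
    refine Eventually.of_forall fun z hz => ?_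
    exact (norm_sub_le _ _).trans (add_le_add (hM z hz) le_rfl)
  rw [h3 _ hint, h2 (fun ξ => ENNReal.ofReal (e ξ / nm ξ ^ 3)) (by
    refine ENNReal.measurable_ofReal.comp (hem.div ?_)
    exact (Measurable.pow_const (Real.continuous_sqrt.measurable.comp N_continuous.measurable) 3))]
  rw [ofReal_norm_eq_enorm]
  refine (enorm_integral_le_lintegral_enorm _).trans (lintegral_mono fun s => ?_)
  rw [← ofReal_norm_eq_enorm]
  have hmaps : MapsTo (fun t : ℂ => (t, t * s)) (Metric.ball (0 : ℂ) (rs s)) B :=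
    fun τ hτ => Lm_mem hτ
  have hc : ContDiffOn ℝ 1 (fun t => Γ (t, t * s)) (Metric.ball (0 : ℂ) (rs s)) :=
    ContDiffOn.comp (g := Γ) (f := fun t => (t, t * s)) hΓ (Lm s).contDiff.contDiffOn hmaps
  have h4 := h1 (fun t => Γ (t, t * s)) (rs s) M (rs_pos s) hc (fun τ hτ => hM _ (Lm_mem hτ))
  have e0 : Γ ((0 : ℂ), (0 : ℂ) * s) = Γ 0 := by rw [zero_mul]; rfl
  simp only [e0] at h4
  refine le_trans h4 (setLIntegral_mono' measurableSet_ball fun τ hτ => ?_)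
  have hd : DifferentiableAt ℝ Γ (τ, τ * s) :=
    (hΓ.contDiffAt (B_open.mem_nhds (Lm_mem hτ))).differentiableAt (by norm_num)
  have h5 : ‖db1 (fun t => Γ (t, t * s)) τ‖ ≤
      e (τ, τ * s) * (rs s / (rs s ^ 2 - ‖τ‖ ^ 2)) := by
    rw [db1_Lm hd, ← len_Lm hτ]
    exact hdb _ (Lm_mem hτ) _
  rw [← ENNReal.ofReal_mul (sq_nonneg _)]
  refine ENNReal.ofReal_le_ofReal ?_
  rcases eq_or_ne τ 0 with h0 | h0
  · rw [h0]
    simp
  · have h6 : 0 < ‖τ‖ := norm_pos_iff.2 h0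
    have h7 := rs_pos s
    have hτ' := hτ
    rw [mem_ball_zero_iff] at hτ'
    have h8 : 0 < rs s ^ 2 - ‖τ‖ ^ 2 := by nlinarith
    have h9 : nm (τ, τ * s) = ‖τ‖ / rs s := by
      have h10 : N (τ, τ * s) = (‖τ‖ / rs s) ^ 2 := by
        have := N_Lm s τ
        rw [div_pow, eq_div_iff (by positivity)]
        exact this
      rw [nm, h10, Real.sqrt_sq (by positivity)]
    rw [h9]
    calc ‖db1 (fun t => Γ (t, t * s)) τ‖ * (rs s ^ 2 * (rs s ^ 2 - ‖τ‖ ^ 2) / ‖τ‖)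
        ≤ e (τ, τ * s) * (rs s / (rs s ^ 2 - ‖τ‖ ^ 2)) *
          (rs s ^ 2 * (rs s ^ 2 - ‖τ‖ ^ 2) / ‖τ‖) :=
          mul_le_mul_of_nonneg_right h5 (by positivity)
      _ = ‖τ‖ ^ 2 * (e (τ, τ * s) / (‖τ‖ / rs s) ^ 3) := by
          field_simp

end

end Pool.Agent.N507.RI
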